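import Mathlib

set_option autoImplicit false

noncomputable section

open Filter Topology Finset

namespace Pool.Agent.H696Ext

/-- the tent functions (peaks at `1 / (n + 1)`) -/
def tent (n : ℕ) (t : ℝ) : ℝ := max 0 (1 - |t⁻¹ - (n + 1)|)

lemma tent_nonneg (n : ℕ) (t : ℝ) : 0 ≤ tent n t := le_max_left _ _

lemma tent_zero (n : ℕ) : tent n 0 = 0 := by
  unfold tent
  rw [inv_zero, zero_sub, abs_neg, abs_of_pos (by positivity)]
  apply max_eq_left
  have : (0:ℝ) ≤ n := by positivity
  linarith

lemma tent_peak (n : ℕ) : tent n (1 / ((n:ℝ) + 1)) = 1 := by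
  unfold tent
  rw [one_div, inv_inv]
  simp

lemma tent_peak_ne {n m : ℕ} (h : n ≠ m) : tent n (1 / ((m:ℝ) + 1)) = 0 := by
  unfold tent
  rw [one_div, inv_inv]
  apply max_eq_left
  have h1 : (1:ℝ) ≤ |(m:ℝ) - n| := by
    have h2 : (1:ℤ) ≤ |(m:ℤ) - n| := by
      apply Int.one_le_abs
      omega
    exact_mod_cast h2
  have h3 : (m:ℝ) + 1 - (n + 1) = m - n := by ring
  rw [h3]
  linarith

lemma tent_continuousOn (n : ℕ) : ContinuousOn (tent n) (Set.Ici 0) := by
  intro t ht
  rcases (Set.mem_Ici.1 ht).eq_or_lt with h | h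
  · subst h
    have h1 : tent n =ᶠ[𝓝[Set.Ici 0] 0] fun _ => 0 := by
      have h2 : ∀ᶠ t : ℝ in 𝓝[Set.Ici 0] 0, t < 1 / ((n:ℝ) + 2) := by
        apply mem_nhdsWithin_of_mem_nhds
        exact Iio_mem_nhds (by positivity)
      filter_upwards [h2, self_mem_nhdsWithin] with t h3 h4
      rcases (Set.mem_Ici.1 h4).eq_or_lt with h | h
      · subst h; exact tent_zero n
      · unfold tent
        apply max_eq_left
        have h5 : (n:ℝ) + 2 < t⁻¹ := by
          rw [lt_inv_comm₀ (by positivity) h, ← one_div]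
          exact h3
        have h6 : (n:ℝ) + 2 - (n + 1) ≤ |t⁻¹ - (n+1)| :=
          le_trans (by linarith) (le_abs_self _)
        linarith
    have h7 : ContinuousWithinAt (fun _ : ℝ => (0:ℝ)) (Set.Ici 0) 0 := continuousWithinAt_const
    exact h7.congr_of_eventuallyEq h1 (tent_zero n)
  · apply ContinuousAt.continuousWithinAt
    unfold tent
    have : ContinuousAt (fun t : ℝ => t⁻¹) t := continuousAt_inv₀ h.ne'
    fun_prop

/-- the tent functions as elements of `C[0,1]` -/
def T (n : ℕ) : C(unitInterval, ℝ) :=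
  ⟨fun t => tent n t, by
    have := tent_continuousOn n
    exact this.comp_continuous continuous_subtype_val (fun t => t.2.1)⟩

lemma T_apply (n : ℕ) (t : unitInterval) : T n t = tent n t := rfl

lemma sum_aux (F : Finset ℕ) (k : ℤ) {c : ℝ} (hc : 0 ≤ c) :
    ∑ n ∈ F, (if (n:ℤ) + 1 = k then c else 0) ≤ c := by
  rw [← Finset.sum_filter, Finset.sum_const, nsmul_eq_mul]
  have h : (F.filter (fun n : ℕ => (n:ℤ) + 1 = k)).card ≤ 1 := by
    rw [Finset.card_le_one]
    intro a ha b hb
    rw [Finset.mem_filter] at ha hb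
    have := ha.2.trans hb.2.symm
    omega
  have h' : ((F.filter (fun n : ℕ => (n:ℤ) + 1 = k)).card : ℝ) ≤ 1 := by exact_mod_cast h
  nlinarith

lemma sum_tent_le (F : Finset ℕ) (t : ℝ) : ∑ n ∈ F, tent n t ≤ 1 := by
  set s := t⁻¹ with hs
  have h1 : ∀ n : ℕ, tent n t ≤ (if (n:ℤ) + 1 = ⌊s⌋ then 1 - Int.fract s else 0) +
      (if (n:ℤ) + 1 = ⌊s⌋ + 1 then Int.fract s else 0) := by
    intro n
    have hf0 := Int.fract_nonneg s
    have hf1 := (Int.fract_lt_one s).le
    have hsum : (⌊s⌋ : ℝ) + Int.fract s = s := Int.floor_add_fract s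
    by_cases h2 : (n:ℤ) + 1 = ⌊s⌋
    · have h3 : ((n:ℝ) + 1) = ⌊s⌋ := by exact_mod_cast h2
      rw [if_pos h2, if_neg (by omega), add_zero]
      unfold tent
      rw [← hs, h3]
      apply max_le (by linarith)
      have : Int.fract s ≤ |s - ⌊s⌋| := by
        have : s - ⌊s⌋ = Int.fract s := by linarith
        rw [this]; exact le_abs_self _
      linarith
    · by_cases h4 : (n:ℤ) + 1 = ⌊s⌋ + 1
      · have h3 : ((n:ℝ) + 1) = ⌊s⌋ + 1 := by exact_mod_cast h4
        rw [if_neg h2, if_pos h4, zero_add]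
        unfold tent
        rw [← hs, h3]
        apply max_le (by linarith)
        have : 1 - Int.fract s ≤ |s - (⌊s⌋ + 1)| := by
          have : s - (⌊s⌋ + 1) = -(1 - Int.fract s) := by linarith
          rw [this, abs_neg]; exact le_abs_self _
        linarith
      · rw [if_neg h2, if_neg h4, add_zero]
        unfold tent
        rw [← hs]
        apply max_le le_rfl
        have : 1 ≤ |s - ((n:ℝ) + 1)| := by
          rcases lt_or_gt_of_ne h2 with h5 | h5
          · have h6 : (n:ℝ) + 1 + 1 ≤ ⌊s⌋ := by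
              have : (n:ℤ) + 1 + 1 ≤ ⌊s⌋ := by omega
              exact_mod_cast this
            exact le_trans (by linarith) (le_abs_self _)
          · have h6 : (⌊s⌋ : ℝ) + 2 ≤ (n:ℝ) + 1 := by
              have : ⌊s⌋ + 2 ≤ (n:ℤ) + 1 := by omega
              exact_mod_cast this
            exact le_trans (by linarith) (neg_le_abs _)
        linarith
  calc ∑ n ∈ F, tent n t ≤ ∑ n ∈ F, ((if (n:ℤ) + 1 = ⌊s⌋ then 1 - Int.fract s else 0) +
      (if (n:ℤ) + 1 = ⌊s⌋ + 1 then Int.fract s else 0)) := Finset.sum_le_sum (fun n _ => h1 n)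
    _ ≤ (1 - Int.fract s) + Int.fract s := by
      rw [Finset.sum_add_distrib]
      exact add_le_add (sum_aux F _ (by have := (Int.fract_lt_one s).le; linarith))
        (sum_aux F _ (Int.fract_nonneg s))
    _ = 1 := by ring

lemma summable_T {a : ℕ → ℝ} (ha : Tendsto a atTop (𝓝 0)) : Summable (fun n => a n • T n) := by
  rw [summable_iff_vanishing_norm]
  intro ε hε
  have h1 := (Metric.tendsto_atTop.1 ha) (ε / 2) (by positivity)
  obtain ⟨N, hN⟩ := h1
  refine ⟨Finset.range N, fun t ht => ?_⟩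
  have h2 : ‖∑ i ∈ t, a i • T i‖ ≤ ε / 2 := by
    rw [ContinuousMap.norm_le _ (by positivity)]
    intro x
    rw [ContinuousMap.sum_apply]
    simp only [ContinuousMap.smul_apply, smul_eq_mul]
    calc ‖∑ i ∈ t, a i * T i x‖ ≤ ∑ i ∈ t, ‖a i * T i x‖ := norm_sum_le _ _
      _ ≤ ∑ i ∈ t, (ε / 2) * T i x := by
        apply Finset.sum_le_sum
        intro i hi
        have h3 : N ≤ i := by
          by_contra h
          exact Finset.disjoint_left.1 ht hi (Finset.mem_range.2 (by omega))
        have h4 := hN i h3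
        rw [Real.dist_eq, sub_zero] at h4
        rw [norm_mul, Real.norm_eq_abs, Real.norm_eq_abs, T_apply,
          abs_of_nonneg (tent_nonneg i _)]
        exact mul_le_mul_of_nonneg_right h4.le (tent_nonneg i _)
      _ = (ε / 2) * ∑ i ∈ t, T i x := by rw [Finset.mul_sum]
      _ ≤ (ε / 2) * 1 := by
        apply mul_le_mul_of_nonneg_left _ (by positivity)
        exact sum_tent_le t x
      _ = ε / 2 := mul_one _
  linarith

/-- the points `1 / (n + 1)` of the unit interval -/
def pt (n : ℕ) : unitInterval := ⟨1 / ((n:ℝ) + 1), by positivity, by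
  rw [div_le_one (by positivity)]
  have : (0:ℝ) ≤ n := by positivity
  linarith⟩

lemma pt_tendsto : Tendsto pt atTop (𝓝 0) := by
  rw [tendsto_subtype_rng]
  exact tendsto_one_div_add_atTop_nhds_zero_nat

section
variable {Y : Type*} [NormedAddCommGroup Y] [NormedSpace ℝ Y]

/-- A pointwise convergent, bounded sequence of functionals is the sequence of evaluations, at
the points `1 / (n + 1)`, of an operator into `C[0,1]` with the same bound. -/
theorem exists_interp (φ : ℕ → Y →L[ℝ] ℝ) (u : Y →L[ℝ] ℝ) {C : ℝ} (hC : 0 ≤ C)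
    (hφ : ∀ n, ‖φ n‖ ≤ C) (hlim : ∀ w, Tendsto (fun n => φ n w) atTop (𝓝 (u w))) :
    ∃ g : Y →L[ℝ] C(unitInterval, ℝ), ‖g‖ ≤ C ∧ ∀ n w, g w (pt n) = φ n w := by
  have hu : ∀ w, |u w| ≤ C * ‖w‖ := by
    intro w
    have h1 : Tendsto (fun n => |φ n w|) atTop (𝓝 |u w|) := (hlim w).abs
    refine le_of_tendsto h1 (Eventually.of_forall fun n => ?_)
    exact le_trans ((φ n).le_opNorm w) (mul_le_mul_of_nonneg_right (hφ n) (norm_nonneg _))
  have hs : ∀ w, Summable (fun n => (φ n w - u w) • T n) := by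
    intro w
    apply summable_T
    have := (hlim w).sub_const (u w)
    rwa [sub_self] at this
  let g0 : Y →ₗ[ℝ] C(unitInterval, ℝ) :=
    { toFun := fun w => ContinuousMap.const _ (u w) + ∑' n, (φ n w - u w) • T n
      map_add' := by
        intro v w
        have h1 : (fun n => (φ n (v + w) - u (v + w)) • T n) =
            fun n => (φ n v - u v) • T n + (φ n w - u w) • T n := by
          funext n
          rw [map_add, map_add, ← add_smul]
          congr 1
          ring
        have h2 : ∑' n, (φ n (v + w) - u (v + w)) • T n =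
            ∑' n, (φ n v - u v) • T n + ∑' n, (φ n w - u w) • T n := by
          rw [h1]
          exact (hs v).tsum_add (hs w)
        have h3 : ContinuousMap.const unitInterval (u (v + w)) =
            ContinuousMap.const _ (u v) + ContinuousMap.const _ (u w) := by
          ext t
          simp
        rw [h2, h3]
        abel
      map_smul' := by
        intro c w
        have h1 : (fun n => (φ n (c • w) - u (c • w)) • T n) =
            fun n => c • ((φ n w - u w) • T n) := by
          funext n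
          rw [map_smul, map_smul, smul_smul]
          congr 1
          simp only [smul_eq_mul]
          ring
        have h2 : ∑' n, (φ n (c • w) - u (c • w)) • T n =
            c • ∑' n, (φ n w - u w) • T n := by
          rw [h1]
          exact (hs w).tsum_const_smul c
        have h3 : ContinuousMap.const unitInterval (u (c • w)) =
            c • ContinuousMap.const _ (u w) := by
          ext t
          simp
        rw [h2, h3, RingHom.id_apply, smul_add] }
  have hval : ∀ w (t : unitInterval), g0 w t = u w + ∑' n, (φ n w - u w) * T n t := by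
    intro w t
    change (ContinuousMap.const unitInterval (u w) + ∑' n, (φ n w - u w) • T n) t = _
    rw [ContinuousMap.add_apply, ContinuousMap.const_apply]
    congr 1
    exact (ContinuousMap.tsum_apply (hs w) t).symm
  have hbound : ∀ w, ‖g0 w‖ ≤ C * ‖w‖ := by
    intro w
    rw [ContinuousMap.norm_le _ (by positivity)]
    intro t
    rw [hval w t]
    have hst : Summable (fun n => (φ n w - u w) * T n t) := by
      have := (ContinuousMap.evalCLM ℝ t).summable (hs w)
      simpa using this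
    have h1 : Tendsto (fun F : Finset ℕ => ‖u w + ∑ n ∈ F, (φ n w - u w) * T n t‖) atTop
        (𝓝 ‖u w + ∑' n, (φ n w - u w) * T n t‖) :=
      (Tendsto.const_add (u w) hst.hasSum).norm
    refine le_of_tendsto h1 (Eventually.of_forall fun F => ?_)
    have h2 : u w + ∑ n ∈ F, (φ n w - u w) * T n t =
        (1 - ∑ n ∈ F, T n t) * u w + ∑ n ∈ F, φ n w * T n t := by
      simp only [sub_mul, Finset.sum_sub_distrib, ← Finset.mul_sum]
      ring
    have h3 : ∑ n ∈ F, T n t ≤ 1 := sum_tent_le F t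
    rw [h2]
    calc ‖(1 - ∑ n ∈ F, T n t) * u w + ∑ n ∈ F, φ n w * T n t‖
        ≤ ‖(1 - ∑ n ∈ F, T n t) * u w‖ + ‖∑ n ∈ F, φ n w * T n t‖ := norm_add_le _ _
      _ ≤ (1 - ∑ n ∈ F, T n t) * (C * ‖w‖) + ∑ n ∈ F, (C * ‖w‖) * T n t := by
        apply add_le_add
        · rw [norm_mul, Real.norm_eq_abs, Real.norm_eq_abs, abs_of_nonneg (by linarith)]
          exact mul_le_mul_of_nonneg_left (hu w) (by linarith)
        · refine le_trans (norm_sum_le _ _) (Finset.sum_le_sum fun n _ => ?_)
          rw [norm_mul]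
          have h4 : ‖T n t‖ = T n t := by
            rw [Real.norm_eq_abs]; exact abs_of_nonneg (tent_nonneg n _)
          rw [h4]
          exact mul_le_mul_of_nonneg_right (le_trans ((φ n).le_opNorm w)
            (mul_le_mul_of_nonneg_right (hφ n) (norm_nonneg _))) (tent_nonneg n _)
      _ = C * ‖w‖ := by
        rw [← Finset.mul_sum]
        ring
  refine ⟨g0.mkContinuous C hbound, LinearMap.mkContinuous_norm_le _ hC _, ?_⟩
  intro n w
  rw [LinearMap.mkContinuous_apply, hval, tsum_eq_single n]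
  · rw [T_apply]
    change u w + (φ n w - u w) * tent n (1 / ((n:ℝ) + 1)) = _
    rw [tent_peak]
    ring
  · intro m hm
    rw [T_apply]
    change (φ m w - u w) * tent m (1 / ((n:ℝ) + 1)) = _
    rw [tent_peak_ne hm, mul_zero]

end

/-- The abstract obstruction to extending an operator into `C[0,1]`. -/
theorem abstract_fail {X : Type*} [NormedAddCommGroup X] [NormedSpace ℝ X]
    (e : ℕ → X) (φ : ℕ → X →L[ℝ] ℝ) (u : X →L[ℝ] ℝ) (w0 : X) {C R κ a b : ℝ}
    (hC : 0 < C) (hR : 0 < R) (hφ : ∀ n, ‖φ n‖ ≤ C) (hue : ∀ m, u (e m) = κ)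
    (hφe : ∀ n m, n ≠ m → φ n (e m) = κ) (hφn : ∀ n, φ n (e n) = C * R)
    (ha : ∀ n, Even n → ‖e n + w0‖ ≤ a) (hb : ∀ n, Odd n → ‖e n - w0‖ ≤ b)
    (hab : a + b < 2 * R) :
    ∃ c : ℝ, 1 < c ∧ ∃ Y : Submodule ℝ X, IsClosed (Y : Set X) ∧
      ∃ g : Y →L[ℝ] C(unitInterval, ℝ), ∀ f : X →L[ℝ] C(unitInterval, ℝ),
        (∀ y : Y, f y = g y) → c * ‖g‖ < ‖f‖ := by
  set Y : Submodule ℝ X := (Submodule.span ℝ (Set.range e)).topologicalClosure with hY
  have heY : ∀ n, e n ∈ Y := fun n =>
    Submodule.le_topologicalClosure _ (Submodule.subset_span ⟨n, rfl⟩)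
  -- convergence on `Y`
  have hlim : ∀ w ∈ Y, Tendsto (fun n => φ n w) atTop (𝓝 (u w)) := by
    intro w hw
    rw [Metric.tendsto_atTop]
    intro ε hε
    have hw' : w ∈ closure ((Submodule.span ℝ (Set.range e) : Submodule ℝ X) : Set X) := hw
    set M : ℝ := C + ‖u‖ + 1 with hM
    have hMpos : 0 < M := by positivity
    obtain ⟨v, hv, hvw⟩ := Metric.mem_closure_iff.1 hw' (ε / (2 * M)) (by positivity)
    have hlimv : ∀ v ∈ Submodule.span ℝ (Set.range e), ∃ N, ∀ n ≥ N, φ n v = u v := by
      intro v hv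
      induction hv using Submodule.span_induction with
      | mem x hx =>
        obtain ⟨m, rfl⟩ := hx
        exact ⟨m + 1, fun n hn => by rw [hue, hφe n m (by omega)]⟩
      | zero => exact ⟨0, fun n _ => by simp⟩
      | add x y _ _ hx hy =>
        obtain ⟨N1, h1⟩ := hx
        obtain ⟨N2, h2⟩ := hy
        exact ⟨max N1 N2, fun n hn => by
          rw [map_add, map_add, h1 n (le_trans (le_max_left _ _) hn),
            h2 n (le_trans (le_max_right _ _) hn)]⟩
      | smul c x _ hx =>
        obtain ⟨N1, h1⟩ := hx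
        exact ⟨N1, fun n hn => by rw [map_smul, map_smul, h1 n hn]⟩
    obtain ⟨N, hN⟩ := hlimv v hv
    refine ⟨N, fun n hn => ?_⟩
    have h1 : φ n w - u w = φ n (w - v) - u (w - v) := by
      rw [map_sub, map_sub, hN n hn]
      ring
    rw [dist_eq_norm] at hvw
    rw [Real.dist_eq, h1]
    calc |φ n (w - v) - u (w - v)| ≤ |φ n (w - v)| + |u (w - v)| := abs_sub _ _
      _ ≤ C * ‖w - v‖ + ‖u‖ * ‖w - v‖ := by
        apply add_le_add
        · exact le_trans ((φ n).le_opNorm _)
            (mul_le_mul_of_nonneg_right (hφ n) (norm_nonneg _))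
        · exact u.le_opNorm _
      _ ≤ M * ‖w - v‖ := by
        rw [hM]
        nlinarith [norm_nonneg (w - v)]
      _ ≤ M * (ε / (2 * M)) := mul_le_mul_of_nonneg_left hvw.le hMpos.le
      _ = ε / 2 := by field_simp
      _ < ε := by linarith
  obtain ⟨g, hg1, hg2⟩ := exists_interp (Y := Y) (fun n => (φ n).comp Y.subtypeL)
    (u.comp Y.subtypeL) hC.le
    (fun n => by
      refine ContinuousLinearMap.opNorm_le_bound _ hC.le fun w => ?_
      exact le_trans ((φ n).le_opNorm _) (mul_le_mul_of_nonneg_right (hφ n) (norm_nonneg _)))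
    (fun w => hlim w w.2)
  have ha0 : 0 ≤ a := le_trans (norm_nonneg _) (ha 0 (by decide))
  have hb0 : 0 ≤ b := le_trans (norm_nonneg _) (hb 1 (by decide))
  -- lower bound for extensions
  have hmain : ∀ f : X →L[ℝ] C(unitInterval, ℝ), (∀ y : Y, f y = g y) →
      2 * (C * R) ≤ ‖f‖ * (a + b) := by
    intro f hf
    have hfe : ∀ n, f (e n) (pt n) = C * R := by
      intro n
      have := hf ⟨e n, heY n⟩
      change f (e n) = _ at this
      rw [this, hg2]
      exact hφn n
    have hcont : Tendsto (fun n => f w0 (pt n)) atTop (𝓝 (f w0 0)) :=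
      ((f w0).continuous.tendsto 0).comp pt_tendsto
    have hE : ∀ n, C * R + f w0 (pt (2 * n)) ≤ ‖f‖ * a := by
      intro n
      have h1 : f (e (2 * n) + w0) (pt (2 * n)) = C * R + f w0 (pt (2 * n)) := by
        rw [map_add, ContinuousMap.add_apply, hfe]
      rw [← h1]
      calc f (e (2 * n) + w0) (pt (2 * n)) ≤ ‖f (e (2 * n) + w0) (pt (2 * n))‖ := le_abs_self _
        _ ≤ ‖f (e (2 * n) + w0)‖ := ContinuousMap.norm_coe_le_norm _ _
        _ ≤ ‖f‖ * ‖e (2 * n) + w0‖ := f.le_opNorm _
        _ ≤ ‖f‖ * a := mul_le_mul_of_nonneg_left (ha _ (even_two_mul n)) f.opNorm_nonneg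
    have hO : ∀ n, C * R - f w0 (pt (2 * n + 1)) ≤ ‖f‖ * b := by
      intro n
      have h1 : f (e (2 * n + 1) - w0) (pt (2 * n + 1)) = C * R - f w0 (pt (2 * n + 1)) := by
        rw [map_sub, ContinuousMap.sub_apply, hfe]
      rw [← h1]
      calc f (e (2 * n + 1) - w0) (pt (2 * n + 1))
          ≤ ‖f (e (2 * n + 1) - w0) (pt (2 * n + 1))‖ := le_abs_self _
        _ ≤ ‖f (e (2 * n + 1) - w0)‖ := ContinuousMap.norm_coe_le_norm _ _
        _ ≤ ‖f‖ * ‖e (2 * n + 1) - w0‖ := f.le_opNorm _
        _ ≤ ‖f‖ * b := mul_le_mul_of_nonneg_left (hb _ (odd_two_mul_add_one n)) f.opNorm_nonneg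
    have t1 : Tendsto (fun n : ℕ => 2 * n) atTop atTop :=
      tendsto_atTop_mono (fun n => by simp only [id]; omega) tendsto_id
    have t2 : Tendsto (fun n : ℕ => 2 * n + 1) atTop atTop :=
      tendsto_atTop_mono (fun n => by simp only [id]; omega) tendsto_id
    have l1 : C * R + f w0 0 ≤ ‖f‖ * a :=
      le_of_tendsto ((hcont.comp t1).const_add _) (Eventually.of_forall hE)
    have l2 : C * R - f w0 0 ≤ ‖f‖ * b :=
      le_of_tendsto ((hcont.comp t2).const_sub _) (Eventually.of_forall hO)
    linarith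
  have hpos : ∀ f : X →L[ℝ] C(unitInterval, ℝ), (∀ y : Y, f y = g y) → 0 < a + b := by
    intro f hf
    rcases (add_nonneg ha0 hb0).eq_or_lt with h | h
    · have := hmain f hf
      rw [← h, mul_zero] at this
      have : 0 < C * R := by positivity
      linarith
    · exact h
  by_cases hab0 : 0 < a + b
  · set c : ℝ := (1 + 2 * R / (a + b)) / 2 with hc
    have h1 : 1 < 2 * R / (a + b) := by rw [lt_div_iff₀ hab0]; linarith
    refine ⟨c, by rw [hc]; linarith, Y, Submodule.isClosed_topologicalClosure _, g, ?_⟩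
    intro f hf
    have h2 := hmain f hf
    have h3 : c < 2 * R / (a + b) := by rw [hc]; linarith
    calc c * ‖g‖ ≤ c * C := mul_le_mul_of_nonneg_left hg1 (by rw [hc]; linarith)
      _ < (2 * R / (a + b)) * C := mul_lt_mul_of_pos_right h3 hC
      _ = 2 * (C * R) / (a + b) := by ring
      _ ≤ ‖f‖ := by rw [div_le_iff₀ hab0]; exact h2
  · refine ⟨2, by norm_num, Y, Submodule.isClosed_topologicalClosure _, g, ?_⟩
    intro f hf
    exact absurd (hpos f hf) hab0

end Pool.Agent.H696Ext
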