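import Pool.Agent.H696Ext.Rad
import Pool.Agent.H696Ext.Interp

set_option autoImplicit false

noncomputable section

open MeasureTheory Filter Topology
open scoped ENNReal

namespace Pool.Agent.H696Ext

lemma memLp_two (p : ℝ≥0∞) (Θ : ℝ → ℝ → ℝ) (n : ℕ) :
    MemLp (fun x => Θ (rad 0 x) (rad (n + 1) x)) p μI :=
  MemLp.of_bound (measurable_two Θ n).aestronglyMeasurable (bd Θ)
    (ae_of_all _ fun x => le_bd Θ (rad_cases 0 x) (rad_cases (n + 1) x))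

/-- the element `Θ(r₀, r_{n+1})` of `L_p[0,1]` -/
def el (p : ℝ≥0∞) (Θ : ℝ → ℝ → ℝ) (n : ℕ) : Lp ℝ p μI := (memLp_two p Θ n).toLp _

lemma norm_el {p : ℝ≥0∞} (hp0 : p ≠ 0) (hp : p ≠ ∞) (Θ : ℝ → ℝ → ℝ) (n : ℕ) :
    ‖el p Θ n‖ = ((|Θ 1 1| ^ p.toReal + |Θ 1 (-1)| ^ p.toReal + |Θ (-1) 1| ^ p.toReal +
      |Θ (-1) (-1)| ^ p.toReal) / 4) ^ p.toReal⁻¹ := by
  unfold el
  rw [Lp.norm_toLp, (memLp_two p Θ n).eLpNorm_eq_integral_rpow_norm hp0 hp]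
  have h := integral_two (fun i h => ‖Θ i h‖ ^ p.toReal) n
  simp only [Real.norm_eq_abs] at h
  simp only [Real.norm_eq_abs]
  rw [h, ENNReal.toReal_ofReal]
  apply Real.rpow_nonneg
  positivity

lemma el_add (p : ℝ≥0∞) (Θ Θ' : ℝ → ℝ → ℝ) (n : ℕ) :
    el p Θ n + el p Θ' n = el p (fun i h => Θ i h + Θ' i h) n := by
  unfold el
  rw [← MemLp.toLp_add]
  rfl

lemma el_sub (p : ℝ≥0∞) (Θ Θ' : ℝ → ℝ → ℝ) (n : ℕ) :
    el p Θ n - el p Θ' n = el p (fun i h => Θ i h - Θ' i h) n := by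
  unfold el
  rw [← MemLp.toLp_sub]
  rfl

section
variable {p q : ℝ≥0∞} [Fact (1 ≤ p)] [Fact (1 ≤ q)] [ENNReal.HolderConjugate q p]

/-- the functional on `L_p` given by an element of `L_q` -/
def pr (k : Lp ℝ q μI) : Lp ℝ p μI →L[ℝ] ℝ := (ContinuousLinearMap.mul ℝ ℝ).lpPairing μI q p k

lemma pr_apply (k : Lp ℝ q μI) (w : Lp ℝ p μI) : pr k w = ∫ x, k x * w x ∂μI := by
  unfold pr
  rw [ContinuousLinearMap.lpPairing_eq_integral]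
  rfl

lemma norm_pr_le (k : Lp ℝ q μI) : ‖(pr k : Lp ℝ p μI →L[ℝ] ℝ)‖ ≤ ‖k‖ := by
  refine ContinuousLinearMap.opNorm_le_bound _ (norm_nonneg _) fun w => ?_
  have h1 : pr k w = L1.integral ((ContinuousLinearMap.mul ℝ ℝ).holder (r := 1) k w) := by
    rw [pr_apply, L1.integral_eq_integral]
    refine integral_congr_ae ?_
    filter_upwards [(ContinuousLinearMap.mul ℝ ℝ).coeFn_holder (r := 1) k w] with x hx
    rw [hx]
    rfl
  rw [h1]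
  refine le_trans (L1.norm_integral_le _) ?_
  refine le_trans (ContinuousLinearMap.norm_holder_apply_apply_le _ k w) ?_
  have h2 : ‖ContinuousLinearMap.mul ℝ ℝ‖ ≤ 1 := ContinuousLinearMap.opNorm_mul_le ℝ ℝ
  calc ‖ContinuousLinearMap.mul ℝ ℝ‖ * ‖k‖ * ‖w‖ ≤ 1 * ‖k‖ * ‖w‖ := by gcongr
    _ = ‖k‖ * ‖w‖ := by ring

lemma pr_el (Θ Θ' : ℝ → ℝ → ℝ) (n m : ℕ) :
    pr (el q Θ n) (el p Θ' m) =
      ∫ x, Θ (rad 0 x) (rad (n + 1) x) * Θ' (rad 0 x) (rad (m + 1) x) ∂μI := by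
  rw [pr_apply]
  refine integral_congr_ae ?_
  filter_upwards [(memLp_two q Θ n).coeFn_toLp, (memLp_two p Θ' m).coeFn_toLp] with x h1 h2
  unfold el
  rw [h1, h2]

end

end Pool.Agent.H696Ext
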