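import Mathlib

set_option autoImplicit false

noncomputable section

open MeasureTheory Filter Topology

namespace Pool.Agent.H696Ext

/-- Lebesgue measure on `[0,1]` -/
abbrev μI : Measure ℝ := volume.restrict (Set.Icc (0:ℝ) 1)

instance : IsProbabilityMeasure μI := ⟨by simp [μI]⟩

/-- the Rademacher functions -/
def rad (k : ℕ) (x : ℝ) : ℝ := if Even ⌊x * 2 ^ (k + 1)⌋ then 1 else -1

lemma rad_cases (k : ℕ) (x : ℝ) : rad k x = 1 ∨ rad k x = -1 := by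
  unfold rad
  split_ifs
  · exact Or.inl rfl
  · exact Or.inr rfl

lemma rad_measurable (k : ℕ) : Measurable (rad k) := by
  have h1 : Measurable (fun x : ℝ => ⌊x * 2 ^ (k + 1)⌋) :=
    Int.measurable_floor.comp (measurable_id.mul_const _)
  have h2 : Measurable (fun z : ℤ => if Even z then (1:ℝ) else -1) := measurable_from_top
  exact h2.comp h1

lemma rad_antiperiodic (k : ℕ) : Function.Antiperiodic (rad k) (1 / 2 ^ (k + 1)) := by
  intro x
  unfold rad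
  have h1 : (x + 1 / 2 ^ (k + 1)) * 2 ^ (k + 1) = x * 2 ^ (k + 1) + 1 := by
    field_simp
  rw [h1, Int.floor_add_one]
  by_cases h : Even ⌊x * 2 ^ (k + 1)⌋
  · rw [if_pos h, if_neg]
    rw [Int.even_add_one]
    exact not_not.2 h
  · rw [if_neg h, if_pos, neg_neg]
    rw [Int.even_add_one]
    exact h

lemma rad_periodic_one (k : ℕ) : Function.Periodic (rad k) 1 := by
  intro x
  unfold rad
  have h1 : (x + 1) * 2 ^ (k + 1) = x * 2 ^ (k + 1) + ((2 ^ (k + 1) : ℤ) : ℝ) := by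
    push_cast
    ring
  rw [h1, Int.floor_add_intCast]
  have h2 : Even ((2:ℤ) ^ (k + 1)) := by
    rw [pow_succ]
    exact even_two.mul_left _
  have h3 : Even (⌊x * 2 ^ (k + 1)⌋ + (2:ℤ) ^ (k + 1)) ↔ Even ⌊x * 2 ^ (k + 1)⌋ := by
    rw [Int.even_add]
    exact iff_true_right h2 |>.trans (by rfl)
  by_cases h : Even ⌊x * 2 ^ (k + 1)⌋
  · rw [if_pos h, if_pos (h3.2 h)]
  · rw [if_neg h, if_neg (fun h' => h (h3.1 h'))]

lemma rad_periodic {k l : ℕ} (hkl : k < l) : Function.Periodic (rad l) (1 / 2 ^ (k + 1)) := by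
  intro x
  unfold rad
  obtain ⟨m, rfl⟩ := Nat.exists_eq_add_of_lt hkl
  have h1 : (x + 1 / 2 ^ (k + 1)) * 2 ^ (k + m + 1 + 1) =
      x * 2 ^ (k + m + 1 + 1) + ((2 ^ (m + 1) : ℤ) : ℝ) := by
    push_cast
    have : (2:ℝ) ^ (k + m + 1 + 1) = 2 ^ (k + 1) * 2 ^ (m + 1) := by
      rw [← pow_add]; congr 1; ring
    rw [this]
    field_simp
  rw [h1, Int.floor_add_intCast]
  have h2 : Even ((2:ℤ) ^ (m + 1)) := by
    rw [pow_succ]
    exact even_two.mul_left _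
  have h3 : Even (⌊x * 2 ^ (k + m + 1 + 1)⌋ + (2:ℤ) ^ (m + 1)) ↔
      Even ⌊x * 2 ^ (k + m + 1 + 1)⌋ := by
    rw [Int.even_add]
    exact iff_true_right h2 |>.trans (by rfl)
  by_cases h : Even ⌊x * 2 ^ (k + m + 1 + 1)⌋
  · rw [if_pos h, if_pos (h3.2 h)]
  · rw [if_neg h, if_neg (fun h' => h (h3.1 h'))]

/-- a function which is `1`-periodic and antiperiodic has mean zero -/
lemma integral_zero_of_anti {F : ℝ → ℝ} {c : ℝ} (h1 : Function.Periodic F 1)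
    (h2 : Function.Antiperiodic F c) : ∫ x, F x ∂μI = 0 := by
  rw [μI, integral_Icc_eq_integral_Ioc, ← intervalIntegral.integral_of_le zero_le_one]
  have h3 : ∫ x in c..(c + 1), F x = ∫ x in (0:ℝ)..(0 + 1), F x :=
    h1.intervalIntegral_add_eq c 0
  have h4 : ∫ x in (0:ℝ)..1, F (x + c) = ∫ x in (0 + c)..(1 + c), F x :=
    intervalIntegral.integral_comp_add_right F c
  have h5 : ∫ x in (0:ℝ)..1, F (x + c) = -∫ x in (0:ℝ)..1, F x := by
    rw [← intervalIntegral.integral_neg]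
    exact intervalIntegral.integral_congr (fun x _ => h2 x)
  rw [zero_add] at h3 h4
  rw [add_comm 1 c, h3, h5] at h4
  linarith

lemma int_rad (k : ℕ) : ∫ x, rad k x ∂μI = 0 :=
  integral_zero_of_anti (rad_periodic_one k) (rad_antiperiodic k)

lemma int_rad2 {k l : ℕ} (h : k < l) : ∫ x, rad k x * rad l x ∂μI = 0 := by
  refine integral_zero_of_anti (c := 1 / 2 ^ (k + 1)) ?_ ?_
  · intro x
    simp only [rad_periodic_one k x, rad_periodic_one l x]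
  · intro x
    simp only [rad_antiperiodic k x, rad_periodic h x]
    ring

lemma int_rad3 {k l m : ℕ} (h : k < l) (h' : k < m) :
    ∫ x, rad k x * rad l x * rad m x ∂μI = 0 := by
  refine integral_zero_of_anti (c := 1 / 2 ^ (k + 1)) ?_ ?_
  · intro x
    simp only [rad_periodic_one k x, rad_periodic_one l x, rad_periodic_one m x]
  · intro x
    simp only [rad_antiperiodic k x, rad_periodic h x, rad_periodic h' x]
    ring

lemma integrable_of_bdd {F : ℝ → ℝ} (hF : Measurable F) {C : ℝ} (hC : ∀ x, |F x| ≤ C) :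
    Integrable F μI := by
  refine Integrable.of_bound (C := C) hF.aestronglyMeasurable (ae_of_all _ fun x => ?_)
  exact hC x

lemma abs_rad (k : ℕ) (x : ℝ) : |rad k x| = 1 := by
  rcases rad_cases k x with h | h <;> rw [h] <;> simp

lemma integrable_rad (k : ℕ) : Integrable (rad k) μI :=
  integrable_of_bdd (rad_measurable k) (C := 1) (fun x => (abs_rad k x).le)

lemma integrable_rad2 (k l : ℕ) : Integrable (fun x => rad k x * rad l x) μI :=
  integrable_of_bdd ((rad_measurable k).mul (rad_measurable l)) (C := 1)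
    (fun x => by rw [abs_mul, abs_rad, abs_rad]; norm_num)

lemma integrable_rad3 (k l m : ℕ) : Integrable (fun x => rad k x * rad l x * rad m x) μI :=
  integrable_of_bdd (((rad_measurable k).mul (rad_measurable l)).mul (rad_measurable m)) (C := 1)
    (fun x => by rw [abs_mul, abs_mul, abs_rad, abs_rad, abs_rad]; norm_num)

lemma expand2 (Θ : ℝ → ℝ → ℝ) {i h : ℝ} (hi : i = 1 ∨ i = -1) (hh : h = 1 ∨ h = -1) :
    Θ i h = (Θ 1 1 + Θ 1 (-1) + Θ (-1) 1 + Θ (-1) (-1)) / 4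
      + (Θ 1 1 + Θ 1 (-1) - Θ (-1) 1 - Θ (-1) (-1)) / 4 * i
      + (Θ 1 1 - Θ 1 (-1) + Θ (-1) 1 - Θ (-1) (-1)) / 4 * h
      + (Θ 1 1 - Θ 1 (-1) - Θ (-1) 1 + Θ (-1) (-1)) / 4 * (i * h) := by
  rcases hi with rfl | rfl <;> rcases hh with rfl | rfl <;> ring

lemma measurable_two (Θ : ℝ → ℝ → ℝ) (n : ℕ) :
    Measurable (fun x => Θ (rad 0 x) (rad (n + 1) x)) := by
  have h : (fun x => Θ (rad 0 x) (rad (n + 1) x)) = fun x =>
      (Θ 1 1 + Θ 1 (-1) + Θ (-1) 1 + Θ (-1) (-1)) / 4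
      + (Θ 1 1 + Θ 1 (-1) - Θ (-1) 1 - Θ (-1) (-1)) / 4 * rad 0 x
      + (Θ 1 1 - Θ 1 (-1) + Θ (-1) 1 - Θ (-1) (-1)) / 4 * rad (n + 1) x
      + (Θ 1 1 - Θ 1 (-1) - Θ (-1) 1 + Θ (-1) (-1)) / 4 * (rad 0 x * rad (n + 1) x) := by
    funext x
    exact expand2 Θ (rad_cases 0 x) (rad_cases (n + 1) x)
  rw [h]
  have h0 := rad_measurable 0
  have h1 := rad_measurable (n + 1)
  fun_prop

/-- the maximum of `|Θ|` on the four points -/
def bd (Θ : ℝ → ℝ → ℝ) : ℝ := |Θ 1 1| + |Θ 1 (-1)| + |Θ (-1) 1| + |Θ (-1) (-1)|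

lemma le_bd (Θ : ℝ → ℝ → ℝ) {i h : ℝ} (hi : i = 1 ∨ i = -1) (hh : h = 1 ∨ h = -1) :
    |Θ i h| ≤ bd Θ := by
  unfold bd
  have h1 := abs_nonneg (Θ 1 1)
  have h2 := abs_nonneg (Θ 1 (-1))
  have h3 := abs_nonneg (Θ (-1) 1)
  have h4 := abs_nonneg (Θ (-1) (-1))
  rcases hi with rfl | rfl <;> rcases hh with rfl | rfl <;> linarith

lemma integral_two (Θ : ℝ → ℝ → ℝ) (n : ℕ) :
    ∫ x, Θ (rad 0 x) (rad (n + 1) x) ∂μI =
      (Θ 1 1 + Θ 1 (-1) + Θ (-1) 1 + Θ (-1) (-1)) / 4 := by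
  have h : ∀ x, Θ (rad 0 x) (rad (n + 1) x) =
      (Θ 1 1 + Θ 1 (-1) + Θ (-1) 1 + Θ (-1) (-1)) / 4
      + (Θ 1 1 + Θ 1 (-1) - Θ (-1) 1 - Θ (-1) (-1)) / 4 * rad 0 x
      + (Θ 1 1 - Θ 1 (-1) + Θ (-1) 1 - Θ (-1) (-1)) / 4 * rad (n + 1) x
      + (Θ 1 1 - Θ 1 (-1) - Θ (-1) 1 + Θ (-1) (-1)) / 4 * (rad 0 x * rad (n + 1) x) :=
    fun x => expand2 Θ (rad_cases 0 x) (rad_cases (n + 1) x)
  simp_rw [h]
  have i0 := integrable_rad 0
  have i1 := integrable_rad (n + 1)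
  have i2 := integrable_rad2 0 (n + 1)
  rw [integral_add, integral_add, integral_add, integral_const, integral_const_mul,
    integral_const_mul, integral_const_mul, int_rad, int_rad, int_rad2 (by omega)]
  · simp
  all_goals first
    | exact integrable_const _
    | exact i0.const_mul _
    | exact i1.const_mul _
    | exact i2.const_mul _
    | exact (integrable_const _).add (i0.const_mul _)
    | exact ((integrable_const _).add (i0.const_mul _)).add (i1.const_mul _)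

lemma expand3 (Θ : ℝ → ℝ → ℝ → ℝ) {i h k : ℝ} (hi : i = 1 ∨ i = -1) (hh : h = 1 ∨ h = -1)
    (hk : k = 1 ∨ k = -1) :
    Θ i h k =
      (Θ 1 1 1 + Θ 1 1 (-1) + Θ 1 (-1) 1 + Θ 1 (-1) (-1) +
        Θ (-1) 1 1 + Θ (-1) 1 (-1) + Θ (-1) (-1) 1 + Θ (-1) (-1) (-1)) / 8
      + (Θ 1 1 1 + Θ 1 1 (-1) + Θ 1 (-1) 1 + Θ 1 (-1) (-1) -
        Θ (-1) 1 1 - Θ (-1) 1 (-1) - Θ (-1) (-1) 1 - Θ (-1) (-1) (-1)) / 8 * i
      + (Θ 1 1 1 + Θ 1 1 (-1) - Θ 1 (-1) 1 - Θ 1 (-1) (-1) +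
        Θ (-1) 1 1 + Θ (-1) 1 (-1) - Θ (-1) (-1) 1 - Θ (-1) (-1) (-1)) / 8 * h
      + (Θ 1 1 1 - Θ 1 1 (-1) + Θ 1 (-1) 1 - Θ 1 (-1) (-1) +
        Θ (-1) 1 1 - Θ (-1) 1 (-1) + Θ (-1) (-1) 1 - Θ (-1) (-1) (-1)) / 8 * k
      + (Θ 1 1 1 + Θ 1 1 (-1) - Θ 1 (-1) 1 - Θ 1 (-1) (-1) -
        Θ (-1) 1 1 - Θ (-1) 1 (-1) + Θ (-1) (-1) 1 + Θ (-1) (-1) (-1)) / 8 * (i * h)
      + (Θ 1 1 1 - Θ 1 1 (-1) + Θ 1 (-1) 1 - Θ 1 (-1) (-1) -
        Θ (-1) 1 1 + Θ (-1) 1 (-1) - Θ (-1) (-1) 1 + Θ (-1) (-1) (-1)) / 8 * (i * k)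
      + (Θ 1 1 1 - Θ 1 1 (-1) - Θ 1 (-1) 1 + Θ 1 (-1) (-1) +
        Θ (-1) 1 1 - Θ (-1) 1 (-1) - Θ (-1) (-1) 1 + Θ (-1) (-1) (-1)) / 8 * (h * k)
      + (Θ 1 1 1 - Θ 1 1 (-1) - Θ 1 (-1) 1 + Θ 1 (-1) (-1) -
        Θ (-1) 1 1 + Θ (-1) 1 (-1) + Θ (-1) (-1) 1 - Θ (-1) (-1) (-1)) / 8 * (i * h * k) := by
  rcases hi with rfl | rfl <;> rcases hh with rfl | rfl <;> rcases hk with rfl | rfl <;> ring

lemma integral_lin {n m : ℕ} (hnm : n ≠ m) (a0 a1 a2 a3 a4 a5 a6 a7 : ℝ) :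
    ∫ x, (a0 + a1 * rad 0 x + a2 * rad (n + 1) x + a3 * rad (m + 1) x +
      a4 * (rad 0 x * rad (n + 1) x) + a5 * (rad 0 x * rad (m + 1) x) +
      a6 * (rad (n + 1) x * rad (m + 1) x) +
      a7 * (rad 0 x * rad (n + 1) x * rad (m + 1) x)) ∂μI = a0 := by
  have hz : ∫ x, rad (n + 1) x * rad (m + 1) x ∂μI = 0 := by
    rcases lt_or_gt_of_ne hnm with h | h
    · exact int_rad2 (by omega)
    · have : ∀ x, rad (n + 1) x * rad (m + 1) x = rad (m + 1) x * rad (n + 1) x :=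
        fun x => mul_comm _ _
      simp_rw [this]
      exact int_rad2 (by omega)
  have i0 := (integrable_rad 0).const_mul a1
  have i1 := (integrable_rad (n + 1)).const_mul a2
  have i2 := (integrable_rad (m + 1)).const_mul a3
  have i3 := (integrable_rad2 0 (n + 1)).const_mul a4
  have i4 := (integrable_rad2 0 (m + 1)).const_mul a5
  have i5 := (integrable_rad2 (n + 1) (m + 1)).const_mul a6
  have i6 := (integrable_rad3 0 (n + 1) (m + 1)).const_mul a7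
  have A0 := integrable_const (μ := μI) a0
  have A1 : Integrable (fun x => a0 + a1 * rad 0 x) μI := A0.add i0
  have A2 : Integrable (fun x => a0 + a1 * rad 0 x + a2 * rad (n + 1) x) μI := A1.add i1
  have A3 : Integrable (fun x => a0 + a1 * rad 0 x + a2 * rad (n + 1) x +
    a3 * rad (m + 1) x) μI := A2.add i2
  have A4 : Integrable (fun x => a0 + a1 * rad 0 x + a2 * rad (n + 1) x +
    a3 * rad (m + 1) x + a4 * (rad 0 x * rad (n + 1) x)) μI := A3.add i3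
  have A5 : Integrable (fun x => a0 + a1 * rad 0 x + a2 * rad (n + 1) x +
    a3 * rad (m + 1) x + a4 * (rad 0 x * rad (n + 1) x) +
    a5 * (rad 0 x * rad (m + 1) x)) μI := A4.add i4
  have A6 : Integrable (fun x => a0 + a1 * rad 0 x + a2 * rad (n + 1) x +
    a3 * rad (m + 1) x + a4 * (rad 0 x * rad (n + 1) x) +
    a5 * (rad 0 x * rad (m + 1) x) + a6 * (rad (n + 1) x * rad (m + 1) x)) μI := A5.add i5
  rw [integral_add A6 i6, integral_add A5 i5, integral_add A4 i4, integral_add A3 i3,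
    integral_add A2 i2, integral_add A1 i1, integral_add A0 i0, integral_const,
    integral_const_mul, integral_const_mul, integral_const_mul, integral_const_mul,
    integral_const_mul, integral_const_mul, integral_const_mul, int_rad, int_rad, int_rad,
    int_rad2 (by omega), int_rad2 (by omega), hz, int_rad3 (by omega) (by omega)]
  simp

lemma integral_three (Θ : ℝ → ℝ → ℝ → ℝ) {n m : ℕ} (hnm : n ≠ m) :
    ∫ x, Θ (rad 0 x) (rad (n + 1) x) (rad (m + 1) x) ∂μI =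
      (Θ 1 1 1 + Θ 1 1 (-1) + Θ 1 (-1) 1 + Θ 1 (-1) (-1) +
        Θ (-1) 1 1 + Θ (-1) 1 (-1) + Θ (-1) (-1) 1 + Θ (-1) (-1) (-1)) / 8 := by
  have h := fun x => expand3 Θ (rad_cases 0 x) (rad_cases (n + 1) x) (rad_cases (m + 1) x)
  simp_rw [h]
  exact integral_lin hnm _ _ _ _ _ _ _ _

end Pool.Agent.H696Ext
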